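import Pool.Agent.Y994.KW.Stm2

/-! KW2-POS: the displacement of the interface is not degenerate. -/

set_option autoImplicit false

namespace Pool.Agent.H70KW

open H906K Y994.KW Finset

/-- the rows -/
abbrev Row (n : ℕ) := Fin (2 * n + 1) → Bool

theorem jx_val (m : ℕ) (j : ℤ) : ((jx m j : ℕ) : ℤ) = j % ((m : ℤ) + 1) := by
  unfold jx
  exact Int.toNat_of_nonneg (Int.emod_nonneg j (by omega))

theorem jx_ext {m : ℕ} {i j : ℤ} (h : i % ((m : ℤ) + 1) = j % ((m : ℤ) + 1)) : jx m i = jx m j := by
  apply Fin.ext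
  have h1 := jx_val m i
  have h2 := jx_val m j
  omega

theorem jx_add (m : ℕ) (j k : ℤ) : jx m ((jx m j : ℕ) + k) = jx m (j + k) := by
  apply jx_ext
  rw [jx_val, Int.emod_add_emod]

theorem jx_self (m : ℕ) (r : Fin (m + 1)) : jx m ((r : ℕ) : ℤ) = r := by
  apply Fin.ext
  have h1 := jx_val m ((r : ℕ) : ℤ)
  rw [Int.emod_eq_of_lt (by omega) (by have := r.2; omega)] at h1
  exact_mod_cast h1

/-- the rotation by two steps -/
def rot (n : ℕ) : Fin (2 * n + 1) ≃ Fin (2 * n + 1) where
  toFun r := jx (2 * n) ((r : ℕ) + 2)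
  invFun r := jx (2 * n) ((r : ℕ) + (-2))
  left_inv r := by
    dsimp only
    rw [jx_add, add_assoc, add_neg_cancel, add_zero, jx_self]
  right_inv r := by
    dsimp only
    rw [jx_add, add_assoc, neg_add_cancel, add_zero, jx_self]

theorem rot_jx (n : ℕ) (j : ℤ) : rot n (jx (2 * n) j) = jx (2 * n) (j + 2) := jx_add _ _ _

/-- the exchange of the two states -/
def nt (n : ℕ) : Row n ≃ Row n where
  toFun r := fun j => !(r j)
  invFun r := fun j => !(r j)
  left_inv r := by funext j; simp
  right_inv r := by funext j; simp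

/-- the rotation of a row -/
def rr (n : ℕ) : Row n ≃ Row n where
  toFun r := fun j => r (rot n j)
  invFun r := fun j => r ((rot n).symm j)
  left_inv r := by funext j; simp
  right_inv r := by funext j; simp

/-- exchange of the states in the row `t` and rotation above -/
def sh (n M : ℕ) (t : Fin M) : (Fin M → Row n) ≃ (Fin M → Row n) :=
  Equiv.piCongrRight fun s => if s < t then Equiv.refl _ else if s = t then nt n else rr n

/-- exchange of the states in the row `t` -/
def fl (n M : ℕ) (t : Fin M) : (Fin M → Row n) ≃ (Fin M → Row n) :=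
  Equiv.piCongrRight fun s => if s = t then nt n else Equiv.refl _

theorem sh_lt {n M : ℕ} {s t : Fin M} (h : s < t) (c : Fin M → Row n) : sh n M t c s = c s := by
  simp [sh, h]

theorem sh_eq {n M : ℕ} (t : Fin M) (c : Fin M → Row n) : sh n M t c t = nt n (c t) := by
  simp [sh]

theorem sh_gt {n M : ℕ} {s t : Fin M} (h : t < s) (c : Fin M → Row n) (j : ℤ) :
    sh n M t c s (jx (2 * n) j) = c s (jx (2 * n) (j + 2)) := by
  have h1 : ¬ s < t := not_lt.2 h.le
  have h2 : s ≠ t := h.ne'
  have h3 : sh n M t c s = rr n (c s) := by simp [sh, h1, h2]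
  rw [h3, ← rot_jx]
  rfl

theorem fl_eq {n M : ℕ} (t : Fin M) (c : Fin M → Row n) : fl n M t c t = nt n (c t) := by
  simp [fl]

theorem fl_ne {n M : ℕ} {s t : Fin M} (h : s ≠ t) (c : Fin M → Row n) : fl n M t c s = c s := by
  simp [fl, h]

/-- the map of the edges -/
def Ph (t : ℕ) : Edg → Edg
  | .v j s => if s ≤ t then .v j s else .v (j + 2) s
  | .h j s => if s < t then .h j s else if s = t then .h (j + 1) s else .h (j + 2) s

theorem link_map {n M : ℕ} {t : Fin M} {c : Fin M → Row n} (hc : c t = fun _ => false) {x y : Edg}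
    (h : Link n M (sh n M t c) x y) : Link n M c (Ph t x) (Ph t y) := by
  have hct : ∀ j, c t j = false := fun j => by rw [hc]
  have hst : ∀ j, sh n M t c t j = true := fun j => by
    rw [sh_eq]
    change (!(c t j)) = true
    rw [hct]
    rfl
  rcases h with ⟨j, s, h⟩ | ⟨j, s, h⟩ | ⟨j, s, h⟩ | ⟨j, s, h⟩ | ⟨k, i, hi⟩
  · rcases lt_trichotomy s t with hs | rfl | hs
    · rw [sh_lt hs] at h
      have h1 : (s : ℕ) < t := hs
      simp only [Ph, if_pos h1, if_pos h1.le]
      exact Link.br j s h
    · rw [hst] at h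
      exact absurd h (by decide)
    · rw [sh_gt hs] at h
      have h1 : ¬ (s : ℕ) ≤ t := not_le.2 hs
      have h2 : ¬ (s : ℕ) < t := fun h => h1 h.le
      have h3 : (s : ℕ) ≠ t := fun h => h1 h.le
      simp only [Ph, if_neg h1, if_neg h2, if_neg h3]
      have := Link.br (j + 2) s h
      rwa [show j + 2 + 1 = j + 1 + 2 by ring] at this
  · rcases lt_trichotomy s t with hs | rfl | hs
    · rw [sh_lt hs] at h
      have h1 : (s : ℕ) < t := hs
      have h2 : (s : ℕ) + 1 ≤ t := hs
      simp only [Ph, if_pos h1, if_pos h2]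
      exact Link.lt j s h
    · rw [hst] at h
      exact absurd h (by decide)
    · rw [sh_gt hs] at h
      have h1 : ¬ (s : ℕ) ≤ t := not_le.2 hs
      have h2 : ¬ (s : ℕ) < t := fun h => h1 h.le
      have h3 : (s : ℕ) ≠ t := fun h => h1 h.le
      have h4 : ¬ (s : ℕ) + 1 ≤ t := fun h => h1 (by omega)
      simp only [Ph, if_neg h4, if_neg h2, if_neg h3]
      exact Link.lt (j + 2) s h
  · rcases lt_trichotomy s t with hs | rfl | hs
    · rw [sh_lt hs] at h
      have h1 : (s : ℕ) < t := hs
      simp only [Ph, if_pos h1, if_pos h1.le]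
      exact Link.bl j s h
    · simp only [Ph, le_refl, lt_irrefl, if_true, if_false]
      exact Link.br j s (hct _)
    · rw [sh_gt hs] at h
      have h1 : ¬ (s : ℕ) ≤ t := not_le.2 hs
      have h2 : ¬ (s : ℕ) < t := fun h => h1 h.le
      have h3 : (s : ℕ) ≠ t := fun h => h1 h.le
      simp only [Ph, if_neg h1, if_neg h2, if_neg h3]
      exact Link.bl (j + 2) s h
  · rcases lt_trichotomy s t with hs | rfl | hs
    · rw [sh_lt hs] at h
      have h1 : (s : ℕ) < t := hs
      have h2 : (s : ℕ) + 1 ≤ t := hs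
      simp only [Ph, if_pos h1, if_pos h2]
      exact Link.rt j s h
    · have h4 : ¬ (s : ℕ) + 1 ≤ s := by omega
      simp only [Ph, lt_irrefl, if_neg h4, if_true, if_false]
      have := Link.lt (j + 2) s (hct (jx (2 * n) (j + 2)))
      rwa [show Edg.h (j + 2) (s : ℕ) = Edg.h (j + 1 + 1) (s : ℕ) by
        rw [show j + 2 = j + 1 + 1 by ring]] at this
    · rw [sh_gt hs] at h
      have h1 : ¬ (s : ℕ) ≤ t := not_le.2 hs
      have h2 : ¬ (s : ℕ) < t := fun h => h1 h.le
      have h3 : (s : ℕ) ≠ t := fun h => h1 h.le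
      have h4 : ¬ (s : ℕ) + 1 ≤ t := fun h => h1 (by omega)
      simp only [Ph, if_neg h4, if_neg h2, if_neg h3]
      have := Link.rt (j + 2) s h
      rwa [show j + 2 + 1 = j + 1 + 2 by ring] at this
  · simp only [Ph, Nat.zero_le, if_true]
    exact Link.bot k i hi

theorem eqv_map {α β : Type} {r : α → α → Prop} {r' : β → β → Prop} {f : α → β}
    (hf : ∀ x y, r x y → r' (f x) (f y)) {x y : α} (h : Relation.EqvGen r x y) :
    Relation.EqvGen r' (f x) (f y) := by
  induction h with
  | rel x y h => exact .rel _ _ (hf x y h)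
  | refl x => exact .refl _
  | symm x y _ ih => exact .symm _ _ ih
  | trans x y z _ _ ih1 ih2 => exact .trans _ _ _ ih1 ih2

theorem end_map {n M : ℕ} {t : Fin M} {c : Fin M → Row n} (hc : c t = fun _ => false) {X : ℤ}
    (h : H906K.End n M (sh n M t c) X) : H906K.End n M c (X + 2) := by
  have h1 := eqv_map (f := Ph t) (fun x y h => link_map hc h) h
  have h2 : ¬ M ≤ (t : ℕ) := not_le.2 t.2
  simp only [Ph, Nat.zero_le, if_true, if_neg h2] at h1
  unfold H906K.End
  rwa [← add_assoc]

theorem Xd_sh (hU : ∀ (n M : ℕ) (c : Fin M → Fin (2 * n + 1) → Bool), ∃! X : ℤ, H906K.End n M c X)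
    {n M : ℕ} {t : Fin M} {c : Fin M → Row n} (hc : c t = fun _ => false) :
    Xd n M c = Xd n M (sh n M t c) + 2 := by
  have hs : ∀ c, H906K.End n M c (Xd n M c) := fun c => Classical.epsilon_spec (hU n M c).exists
  exact (hU n M c).unique (hs c) (end_map hc (hs _))

/-- the sign of a row -/
noncomputable def aa {n : ℕ} (r : Row n) : ℝ :=
  (if r = (fun _ => false) then 1 else 0) - (if r = (fun _ => true) then 1 else 0)

theorem nt_true {n : ℕ} (r : Row n) : nt n r = (fun _ => true) ↔ r = fun _ => false := by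
  constructor
  · intro h
    funext j
    have h1 : (!(r j)) = true := congrFun h j
    simpa using h1
  · rintro rfl
    rfl

theorem nt_false {n : ℕ} (r : Row n) : nt n r = (fun _ => false) ↔ r = fun _ => true := by
  constructor
  · intro h
    funext j
    have h1 : (!(r j)) = false := congrFun h j
    simpa using h1
  · rintro rfl
    rfl

theorem aa_nt {n : ℕ} (r : Row n) : aa (nt n r) = -aa r := by
  unfold aa
  simp only [nt_true, nt_false]
  ring

theorem row_ne (n : ℕ) : (fun _ => true : Row n) ≠ fun _ => false := fun h => by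
  have h1 := congrFun h 0
  exact absurd h1 (by decide)

theorem aa_sq {n : ℕ} (r : Row n) : aa r * aa r =
    (if r = (fun _ => false) then 1 else 0) + (if r = (fun _ => true) then 1 else 0) := by
  unfold aa
  by_cases h1 : r = fun _ => false
  · have h2 : ¬ r = fun _ => true := fun h => row_ne n (h.symm.trans h1)
    simp only [if_pos h1, if_neg h2]
    norm_num
  · by_cases h2 : r = fun _ => true
    · simp only [if_neg h1, if_pos h2]
      norm_num
    · simp only [if_neg h1, if_neg h2]
      norm_num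

/-- the number of configurations with a given row -/
theorem count (n M : ℕ) (t : Fin M) :
    (∑ c : Fin M → Row n, if c t = (fun _ => false) then (1 : ℝ) else 0) * 2 ^ (2 * n + 1) =
      2 ^ ((2 * n + 1) * M) := by
  classical
  have h1 : ∀ c : Fin M → Row n, (if c t = (fun _ => false) then (1 : ℝ) else 0) =
      ∏ s, (if s = t then (if c s = (fun _ => false) then (1 : ℝ) else 0) else 1) := by
    intro c
    rw [prod_ite_eq']
    simp
  have h2 : ∑ c : Fin M → Row n, (if c t = (fun _ => false) then (1 : ℝ) else 0) =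
      ∏ s : Fin M, (if s = t then (1 : ℝ) else 2 ^ (2 * n + 1)) := by
    simp only [h1]
    have h3 := prod_univ_sum (fun _ : Fin M => (univ : Finset (Row n)))
      (fun s r => if s = t then (if r = (fun _ => false) then (1 : ℝ) else 0) else 1)
    rw [Fintype.piFinset_univ] at h3
    rw [← h3]
    refine prod_congr rfl fun s _ => ?_
    by_cases hs : s = t
    · simp [hs]
    · simp [hs]
  rw [h2]
  have h4 : (2 : ℝ) ^ (2 * n + 1) = ∏ s : Fin M, (if s = t then (2 : ℝ) ^ (2 * n + 1) else 1) := by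
    rw [prod_ite_eq']
    simp
  have h5 : (∏ s : Fin M, (if s = t then (1 : ℝ) else 2 ^ (2 * n + 1))) *
      ∏ s : Fin M, (if s = t then (2 : ℝ) ^ (2 * n + 1) else 1) =
      2 ^ ((2 * n + 1) * M) := by
    rw [← prod_mul_distrib]
    have h6 : ∀ s : Fin M, (if s = t then (1 : ℝ) else 2 ^ (2 * n + 1)) *
        (if s = t then (2 : ℝ) ^ (2 * n + 1) else 1) = 2 ^ (2 * n + 1) := by
      intro s
      split_ifs <;> ring
    simp only [h6]
    rw [prod_const, card_univ, Fintype.card_fin, ← pow_mul]
  rw [← h4] at h5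
  exact h5

theorem t_DPOS (hU : ∀ (n M : ℕ) (c : Fin M → Fin (2 * n + 1) → Bool),
    ∃! X : ℤ, H906K.End n M c X) : S_DPOS := by
  classical
  intro n M _
  -- the number of configurations with the row `t` equal to the row of `false`
  obtain ⟨K, hK⟩ : ∃ K : ℝ, K * 2 ^ (2 * n + 1) = 2 ^ ((2 * n + 1) * M) :=
    ⟨2 ^ ((2 * n + 1) * M) / 2 ^ (2 * n + 1), by field_simp⟩
  have hK1 : ∀ t : Fin M, ∑ c : Fin M → Row n, (if c t = (fun _ => false) then (1 : ℝ) else 0) = K := by
    intro t
    have h1 := count n M t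
    rw [← hK] at h1
    exact mul_right_cancel₀ (by positivity) h1
  have hK2 : ∀ t : Fin M, ∑ c : Fin M → Row n, (if c t = (fun _ => true) then (1 : ℝ) else 0) = K := by
    intro t
    rw [← hK1 t, ← Equiv.sum_comp (fl n M t)]
    refine sum_congr rfl fun c _ => ?_
    rw [fl_eq]
    simp only [nt_true]
  -- the covariance
  have hcov : ∀ t : Fin M, ∑ c : Fin M → Row n, (Xd n M c : ℝ) * aa (c t) = 2 * K := by
    intro t
    have h1 : ∑ c : Fin M → Row n, (Xd n M c : ℝ) * (if c t = (fun _ => true) then (1 : ℝ) else 0) =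
        ∑ c : Fin M → Row n, (Xd n M (sh n M t c) : ℝ) *
          (if c t = (fun _ => false) then (1 : ℝ) else 0) := by
      rw [← Equiv.sum_comp (sh n M t)]
      refine sum_congr rfl fun c _ => ?_
      rw [sh_eq]
      simp only [nt_true]
    have h2 : ∑ c : Fin M → Row n, (Xd n M c : ℝ) * aa (c t) =
        ∑ c : Fin M → Row n, (Xd n M c : ℝ) * (if c t = (fun _ => false) then (1 : ℝ) else 0) -
        ∑ c : Fin M → Row n, (Xd n M c : ℝ) * (if c t = (fun _ => true) then (1 : ℝ) else 0) := by
      rw [← sum_sub_distrib]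
      refine sum_congr rfl fun c _ => ?_
      unfold aa
      ring
    rw [h2, h1, ← sum_sub_distrib, ← hK1 t, mul_sum]
    refine sum_congr rfl fun c _ => ?_
    by_cases hc : c t = fun _ => false
    · rw [if_pos hc, Xd_sh hU hc]
      push_cast
      ring
    · rw [if_neg hc]
      ring
  -- the second moment of the sum of the signs
  have hvar : ∀ s t : Fin M, ∑ c : Fin M → Row n, aa (c s) * aa (c t) = if s = t then 2 * K else 0 := by
    intro s t
    by_cases hst : s = t
    · subst hst
      rw [if_pos rfl]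
      simp only [aa_sq]
      rw [sum_add_distrib, hK1, hK2]
      ring
    · rw [if_neg hst]
      have h1 : ∑ c : Fin M → Row n, aa (c s) * aa (c t) =
          -∑ c : Fin M → Row n, aa (c s) * aa (c t) := by
        nth_rw 1 [← Equiv.sum_comp (fl n M s)]
        rw [← sum_neg_distrib]
        refine sum_congr rfl fun c _ => ?_
        rw [fl_eq, fl_ne (Ne.symm hst), aa_nt]
        ring
      linarith
  have h1 : ∑ c : Fin M → Row n, (Xd n M c : ℝ) * (∑ t, aa (c t)) = M * (2 * K) := by
    simp only [mul_sum]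
    rw [sum_comm]
    simp only [hcov]
    rw [sum_const, card_univ, Fintype.card_fin, nsmul_eq_mul]
  have h2 : ∑ c : Fin M → Row n, (∑ s, aa (c s)) * (∑ t, aa (c t)) = M * (2 * K) := by
    simp only [sum_mul_sum]
    rw [sum_comm]
    have h3 : ∀ s : Fin M, ∑ c : Fin M → Row n, ∑ t, aa (c s) * aa (c t) = 2 * K := by
      intro s
      rw [sum_comm]
      simp only [hvar]
      rw [sum_ite_eq]
      simp
    simp only [h3]
    rw [sum_const, card_univ, Fintype.card_fin, nsmul_eq_mul]
  have h3 : 0 ≤ ∑ c : Fin M → Row n, ((Xd n M c : ℝ) - ∑ t, aa (c t)) ^ 2 :=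
    sum_nonneg fun c _ => sq_nonneg _
  have h4 : ∑ c : Fin M → Row n, ((Xd n M c : ℝ) - ∑ t, aa (c t)) ^ 2 =
      ∑ c : Fin M → Row n, (Xd n M c : ℝ) ^ 2 -
        2 * ∑ c : Fin M → Row n, (Xd n M c : ℝ) * (∑ t, aa (c t)) +
        ∑ c : Fin M → Row n, (∑ s, aa (c s)) * (∑ t, aa (c t)) := by
    rw [mul_sum, ← sum_sub_distrib, ← sum_add_distrib]
    refine sum_congr rfl fun c _ => ?_
    ring
  rw [h4, h1, h2] at h3
  unfold H906K.Ex
  rw [div_le_div_iff₀ (by positivity) (by positivity), ← hK]
  have h5 : 0 ≤ (2 : ℝ) ^ (2 * n + 1) := by positivity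
  have h6 : 2 * (M : ℝ) * K ≤ ∑ c : Fin M → Row n, (Xd n M c : ℝ) ^ 2 := by linarith
  calc 2 * (M : ℝ) * (K * 2 ^ (2 * n + 1)) = (2 * M * K) * 2 ^ (2 * n + 1) := by ring
    _ ≤ (∑ c : Fin M → Row n, (Xd n M c : ℝ) ^ 2) * 2 ^ (2 * n + 1) :=
      mul_le_mul_of_nonneg_right h6 h5

end Pool.Agent.H70KW
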